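import Pool.Agent.Y778.NK.Stm
import Pool.Agent.H26R2.IdemLI.Cls

set_option autoImplicit false

/-!
Traces of `K₀(ℚ[G])` are invariant under powers prime to the order.
-/

namespace Pool.Agent.Y44.NK.Pow

open MonoidAlgebra
open Pool.Agent.H26R2.IdemLI (U U_eq_sum U_class TU TU_apply TU_pow exists_conj_pow_mat
  exists_spec diag_spec U_spec U_congr cind_congr)

section conj

variable {G : Type} [Group G]

theorem conj_pow_eq_one {a b : G} (h : IsConj a b) (n : ℕ) (ha : a ^ n = 1) : b ^ n = 1 := by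
  have h1 := h.pow n
  rw [ha] at h1
  exact isConj_one_right.1 h1

theorem conj_orderOf {a b : G} (h : IsConj a b) : orderOf a = orderOf b := by
  apply Nat.dvd_antisymm
  · exact orderOf_dvd_of_pow_eq_one (conj_pow_eq_one h.symm _ (pow_orderOf_eq_one b))
  · exact orderOf_dvd_of_pow_eq_one (conj_pow_eq_one h _ (pow_orderOf_eq_one a))

theorem coprime_of_conj_pow {p : ℕ} (hp : p.Prime) {h : G} (h0 : 0 < orderOf h) {j : ℕ}
    (hj : 1 ≤ j) (hc : IsConj h (h ^ p ^ j)) : ¬ p ∣ orderOf h := by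
  intro hdvd
  have h1 := conj_orderOf hc
  rw [orderOf_pow' h (pow_ne_zero j hp.ne_zero)] at h1
  have h2 : p ∣ (orderOf h).gcd (p ^ j) := Nat.dvd_gcd hdvd (dvd_pow_self p (by omega))
  have h3 : 0 < (orderOf h).gcd (p ^ j) := Nat.gcd_pos_of_pos_left _ h0
  have h4 : 1 < (orderOf h).gcd (p ^ j) := lt_of_lt_of_le hp.one_lt (Nat.le_of_dvd h3 h2)
  have h5 : orderOf h / (orderOf h).gcd (p ^ j) < orderOf h := Nat.div_lt_self h0 h4
  omega

theorem conj_of_pow_conj {p : ℕ} (hp : p.Prime) {g h : G} (hg : 0 < orderOf g)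
    (hpg : ¬ p ∣ orderOf g) {j : ℕ} (hj : 1 ≤ j) (hc : IsConj h (h ^ p ^ j))
    (hh : IsConj (h ^ p) (g ^ p)) : IsConj h g := by
  have h1 : h ^ (p * orderOf g) = 1 := by
    rw [pow_mul]
    apply conj_pow_eq_one hh.symm
    rw [← pow_mul, mul_comm, pow_mul, pow_orderOf_eq_one, one_pow]
  have h0 : 0 < orderOf h :=
    orderOf_pos_iff.2 (isOfFinOrder_iff_pow_eq_one.2 ⟨_, Nat.mul_pos hp.pos hg, h1⟩)
  have h2 := coprime_of_conj_pow hp h0 hj hc
  -- choose `s` with `p * s ≡ 1` modulo both orders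
  have hcop : p.Coprime (orderOf h * orderOf g) := by
    apply Nat.Coprime.mul_right
    · exact (Nat.Prime.coprime_iff_not_dvd hp).2 h2
    · exact (Nat.Prime.coprime_iff_not_dvd hp).2 hpg
  obtain ⟨s, _, hs⟩ := Nat.exists_mul_mod_eq_of_coprime 1 hcop (Nat.mul_pos h0 hg).ne'
  have hs' : p * s ≡ 1 [MOD orderOf h * orderOf g] := hs
  have e1 : h ^ (p * s) = h := by
    have := pow_eq_pow_iff_modEq.2 (Nat.ModEq.of_mul_right (orderOf g) hs')
    rwa [pow_one] at this
  have e2 : g ^ (p * s) = g := by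
    have := pow_eq_pow_iff_modEq.2 (Nat.ModEq.of_mul_left (orderOf h) hs')
    rwa [pow_one] at this
  have := hh.pow s
  rwa [← pow_mul, ← pow_mul, e1, e2] at this

end conj

section charp

variable {G : Type} [Group G] {n : ℕ}

/-- the Frobenius relation for the traces of an idempotent matrix -/
theorem frob (p : ℕ) [hp : Fact p.Prime] (E : Matrix (Fin n) (Fin n) (MonoidAlgebra (ZMod p) G))
    (hE : E * E = E) (g : G) (hg : 0 < orderOf g) (hpg : ¬ p ∣ orderOf g) :
    U (Pool.Agent.H26R2.IdemLI.cind (ZMod p) (g ^ p)) (∑ i, E i i) =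
      U (Pool.Agent.H26R2.IdemLI.cind (ZMod p) g) (∑ i, E i i) := by
  classical
  set x := ∑ i, E i i with hx
  have hpow : E ^ p = E := by
    have h0 : ∀ n : ℕ, E ^ (n + 1) = E := by
      intro n
      induction n with
      | zero => rw [zero_add, pow_one]
      | succ n ih => rw [pow_succ, ih, hE]
    have h1 : ∀ q : ℕ, q ≠ 0 → E ^ q = E := by
      intro q hq
      obtain ⟨n, rfl⟩ := Nat.exists_eq_succ_of_ne_zero hq
      exact h0 n
    exact h1 p hp.out.ne_zero
  have h1 := TU_pow p (g ^ p) E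
  rw [hpow, TU_apply, TU_apply, ← hx] at h1
  have h2 : U (fun y => Pool.Agent.H26R2.IdemLI.cind (ZMod p) (g ^ p) (y ^ p)) x =
      U (Pool.Agent.H26R2.IdemLI.cind (ZMod p) g) x := by
    have h3 : U (fun y => Pool.Agent.H26R2.IdemLI.cind (ZMod p) (g ^ p) (y ^ p) -
        Pool.Agent.H26R2.IdemLI.cind (ZMod p) g y) x = 0 := by
      apply U_class
      · intro a b hab
        rw [cind_congr hab, cind_congr (hab.pow p)]
      · intro h hh
        by_contra hne
        obtain ⟨j, hj, _, hc⟩ := exists_conj_pow_mat p E hE h hne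
        apply hh
        unfold Pool.Agent.H26R2.IdemLI.cind
        by_cases h4 : IsConj h g
        · rw [if_pos (h4.pow p), if_pos h4, sub_self]
        · rw [if_neg (fun h5 => h4 (conj_of_pow_conj hp.out hg hpg hj hc h5)), if_neg h4, sub_self]
    rw [U_eq_sum _ _ _ subset_rfl] at h3 ⊢
    rw [U_eq_sum _ _ _ subset_rfl]
    rw [← sub_eq_zero, ← Finset.sum_sub_distrib, ← h3]
    exact Finset.sum_congr rfl fun y _ => (mul_sub _ _ _).symm
  rw [h1, h2, ZMod.pow_card]

end charp

section reduction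

variable (p : ℕ) [hp : Fact p.Prime]

/-- `p`-integral rational numbers -/
def A : Subring ℚ where
  carrier := {q | (q.den : ZMod p) ≠ 0}
  mul_mem' := by
    intro a b ha hb h
    have h1 : ((a.den * b.den : ℕ) : ZMod p) = 0 := by
      rw [ZMod.natCast_eq_zero_iff] at h ⊢
      exact h.trans (Rat.mul_den_dvd a b)
    rw [Nat.cast_mul] at h1
    exact (mul_ne_zero ha hb) h1
  one_mem' := by simp
  add_mem' := by
    intro a b ha hb h
    have h1 : ((a.den * b.den : ℕ) : ZMod p) = 0 := by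
      rw [ZMod.natCast_eq_zero_iff] at h ⊢
      exact h.trans (Rat.add_den_dvd a b)
    rw [Nat.cast_mul] at h1
    exact (mul_ne_zero ha hb) h1
  zero_mem' := by simp
  neg_mem' := by
    intro a ha
    show ((-a).den : ZMod p) ≠ 0
    rw [Rat.neg_den]
    exact ha

theorem mem_A (q : ℚ) : q ∈ A p ↔ (q.den : ZMod p) ≠ 0 := Iff.rfl

/-- reduction modulo `p` -/
def red : A p →+* ZMod p where
  toFun q := ((q : ℚ) : ZMod p)
  map_one' := by simp
  map_zero' := by simp
  map_mul' a b := by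
    show (((a : ℚ) * (b : ℚ) : ℚ) : ZMod p) = _
    exact Rat.cast_mul_of_ne_zero a.2 b.2
  map_add' a b := by
    show (((a : ℚ) + (b : ℚ) : ℚ) : ZMod p) = _
    exact Rat.cast_add_of_ne_zero a.2 b.2

theorem red_apply (q : A p) : red p q = ((q : ℚ) : ZMod p) := rfl

end reduction

section main

variable {G : Type} [Group G] {n : ℕ}

theorem trace_modp (E : Matrix (Fin n) (Fin n) (MonoidAlgebra ℚ G)) (hE : E * E = E)
    (p : ℕ) [hp : Fact p.Prime] (h : ∀ i j g, (E i j).coeff g ∈ A p) (g : G)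
    (hg : 0 < orderOf g) (hpg : ¬ p ∣ orderOf g) :
    ∃ a b : A p, (a : ℚ) = U (Pool.Agent.H26R2.IdemLI.cind ℚ (g ^ p)) (∑ i, E i i) ∧
      (b : ℚ) = U (Pool.Agent.H26R2.IdemLI.cind ℚ g) (∑ i, E i i) ∧ red p a = red p b := by
  classical
  obtain ⟨E', hE', hE'2⟩ := exists_spec (A p) (red p) E hE h
  obtain ⟨h1, h2⟩ := diag_spec (A p) (red p) E h E' hE'2
  obtain ⟨a, ha1, ha2⟩ := U_spec (A p) (red p) _ h1 _ h2 (fun y => IsConj y (g ^ p))
  obtain ⟨b, hb1, hb2⟩ := U_spec (A p) (red p) _ h1 _ h2 (fun y => IsConj y g)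
  refine ⟨a, b, ?_, ?_, ?_⟩
  · rw [ha1]
    apply U_congr
    intro y _
    unfold Pool.Agent.H26R2.IdemLI.cind
    congr
  · rw [hb1]
    apply U_congr
    intro y _
    unfold Pool.Agent.H26R2.IdemLI.cind
    congr
  · have e : ∀ (g : G) (x : MonoidAlgebra (ZMod p) G),
        U (fun y => if IsConj y g then (1 : ZMod p) else 0) x =
        U (Pool.Agent.H26R2.IdemLI.cind (ZMod p) g) x := by
      intro g x
      apply U_congr
      intro y _
      unfold Pool.Agent.H26R2.IdemLI.cind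
      congr
    rw [ha2, hb2, e, e]
    exact frob p E' hE' g hg hpg

/-- the traces of an idempotent rational matrix -/
theorem trace_pow (E : Matrix (Fin n) (Fin n) (MonoidAlgebra ℚ G)) (hE : E * E = E) (g : G)
    (hg : 0 < orderOf g) (k : ℕ) (hk : k.Coprime (orderOf g)) :
    U (Pool.Agent.H26R2.IdemLI.cind ℚ (g ^ k)) (∑ i, E i i) =
      U (Pool.Agent.H26R2.IdemLI.cind ℚ g) (∑ i, E i i) := by
  classical
  set r := U (Pool.Agent.H26R2.IdemLI.cind ℚ (g ^ k)) (∑ i, E i i) with hr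
  set s := U (Pool.Agent.H26R2.IdemLI.cind ℚ g) (∑ i, E i i) with hs
  -- all denominators
  let D : ℕ := ∏ i, ∏ j, ∏ y ∈ (E i j).coeff.support, ((E i j).coeff y).den
  have hD : ∀ i j y, ((E i j).coeff y).den ∣ D := by
    intro i j y
    by_cases hy : y ∈ (E i j).coeff.support
    · refine (Finset.dvd_prod_of_mem (fun y => ((E i j).coeff y).den) hy).trans ?_
      refine (Finset.dvd_prod_of_mem
        (fun j => ∏ y ∈ (E i j).coeff.support, ((E i j).coeff y).den) (Finset.mem_univ j)).trans ?_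
      exact Finset.dvd_prod_of_mem
        (fun i => ∏ j, ∏ y ∈ (E i j).coeff.support, ((E i j).coeff y).den) (Finset.mem_univ i)
    · rw [Finsupp.notMem_support_iff.1 hy]
      simp
  have hDpos : 0 < D := by
    apply Finset.prod_pos; intro i _
    apply Finset.prod_pos; intro j _
    apply Finset.prod_pos; intro y _
    exact ((E i j).coeff y).den_pos
  have : NeZero (orderOf g) := ⟨hg.ne'⟩
  have hunit : IsUnit ((k : ZMod (orderOf g))) := (ZMod.isUnit_iff_coprime k (orderOf g)).2 hk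
  obtain ⟨p, hpgt, hpp, hpk⟩ := Nat.forall_exists_prime_gt_and_eq_mod hunit
    (D + orderOf g + (r - s).num.natAbs)
  have hfact : Fact p.Prime := ⟨hpp⟩
  have hgk : g ^ p = g ^ k := by
    rw [pow_eq_pow_iff_modEq]
    exact (ZMod.natCast_eq_natCast_iff _ _ _).1 hpk
  have hA : ∀ i j y, (E i j).coeff y ∈ A p := by
    intro i j y
    rw [mem_A]
    intro h0
    rw [ZMod.natCast_eq_zero_iff] at h0
    have := Nat.le_of_dvd hDpos (h0.trans (hD i j y))
    omega
  have hpg : ¬ p ∣ orderOf g := fun h => by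
    have := Nat.le_of_dvd hg h
    omega
  obtain ⟨a, b, ha, hb, hab⟩ := trace_modp E hE p hA g hg hpg
  rw [hgk, ← hr] at ha
  rw [← hs] at hb
  have h1 : red p (a - b) = 0 := by rw [map_sub, hab, sub_self]
  rw [red_apply] at h1
  have h2 : ((a - b : A p) : ℚ) = r - s := by
    push_cast
    rw [ha, hb]
  rw [h2] at h1
  have h3 : (r - s) ∈ A p := by rw [← h2]; exact (a - b).2
  rw [Rat.cast_def, div_eq_zero_iff] at h1
  have h4 : ((r - s).num : ZMod p) = 0 := h1.resolve_right h3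
  rw [ZMod.intCast_zmod_eq_zero_iff_dvd] at h4
  have h5 : (r - s).num = 0 := by
    by_contra hne
    have h6 := Int.natAbs_dvd_natAbs.2 h4
    rw [Int.natAbs_natCast] at h6
    have h7 := Nat.le_of_dvd (Int.natAbs_pos.2 hne) h6
    omega
  exact sub_eq_zero.1 (Rat.zero_of_num_zero h5)

open Pool.Agent.Y778.NK in
theorem hs_eq_U (E : Matrix (Fin n) (Fin n) (MonoidAlgebra ℚ G)) (g : G) :
    hs ℚ (Pool.Agent.Y778.NK.cind g) E =
      U (Pool.Agent.H26R2.IdemLI.cind ℚ g) (∑ i, E i i) := by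
  classical
  unfold hs
  rw [map_sum]
  refine Finset.sum_congr rfl fun i _ => ?_
  rw [U_eq_sum _ _ _ subset_rfl, Pool.Agent.H23R2.Cyc.ell_eq_sum _ (E i i).coeff.support (E i i)
    (fun g hg => Finsupp.mem_support_iff.2 hg)]
  refine Finset.sum_congr rfl fun y _ => ?_
  congr 1
  unfold Pool.Agent.Y778.NK.cind Pool.Agent.H26R2.IdemLI.cind
  by_cases h : IsConj g y
  · rw [if_pos h, if_pos h.symm]; simp
  · rw [if_neg h, if_neg (fun h' => h h'.symm)]; simp

open Pool.Agent.Y778.NK in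
theorem pow : S_Pow := by
  intro G _ x g k hg hk
  induction x using K0.induction with
  | hadd x y hx hy => rw [map_add, map_add, hx, hy]
  | hneg x hx => rw [map_neg, map_neg, hx]
  | hcl n e he =>
    rw [T_cl0 (cind_cls _), T_cl0 (cind_cls _), hs_eq_U, hs_eq_U]
    exact trace_pow e he g hg k hk

end main

end Pool.Agent.Y44.NK.Pow
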